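import Pool.Agent.AC833.Data

/-!
MP_0bd6b6_an, Q1: the autocorrelation constant satisfies `C_{1a} ≤ 1.5028174 < 1.5028628587`.

The bound comes from an explicit step function with `32768` integer heights on `[-1/4, 1/4)`
(found by a genetic search followed by a quasi-Newton optimisation of a smoothed maximum).
The heights are packed as the base `2^72` digits of one natural number; the digits of its square
are the values of the discrete autoconvolution.
-/

namespace Pool.Agent.Results.MP_0bd6b6_an.StepBound

open Pool.Agent.AC833

theorem works_le_const (C : ℝ) (hC : Works C) : C ≤ 1.5028174 := by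
  refine (data_bound C hC).trans ?_
  push_cast
  rw [div_le_iff₀ (by positivity)]
  norm_num

theorem result :
    {C : ℝ | Works C}.Nonempty ∧ BddAbove {C : ℝ | Works C} ∧
      C1a ≤ 1.5028174 ∧ (1.5028174 : ℝ) < 1.5028628587 := by
  have hne : {C : ℝ | Works C}.Nonempty := ⟨0, works_zero⟩
  exact ⟨hne, ⟨1.5028174, fun C hC => works_le_const C hC⟩,
    csSup_le hne fun C hC => works_le_const C hC, by norm_num⟩

end Pool.Agent.Results.MP_0bd6b6_an.StepBound
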